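import Pool.Agent.Lib.MP_c82b80_an.Transfer
import Pool.Agent.Lib.MP_c82b80_an.Model

/-!
# MP_c82b80_an: conjugacy of masas of the hyperfinite II_1 factor is not classifiable by
countable structures
-/

namespace Pool.Agent.Results.MP_c82b80_an.MasasNotClassifiable

open _root_.MP_c82b80_an

/-- For the hyperfinite II_1 factor `R` in its standard representation, the relation of conjugacy of
masas by automorphisms of `R` is not classifiable by countable structures; and such an `R` exists. -/
theorem result :
    (∀ (H : Type) [NormedAddCommGroup H] [InnerProductSpace ℂ H] [CompleteSpace H]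
      (R : VonNeumannAlgebra H), IsHyperfinite R →
        ¬ ClassifiableByCountableStructures (Conjugate R)) ∧
    ∃ (H : Type) (_ : NormedAddCommGroup H) (_ : InnerProductSpace ℂ H) (_ : CompleteSpace H)
      (R : VonNeumannAlgebra H), IsHyperfinite R := by
  refine ⟨fun _ _ _ _ R hR => not_classifiable_conjugate R hR, ?_⟩
  obtain ⟨H, i1, i2, i3, R, hR⟩ := exists_hyperfiniteII1
  exact ⟨H, i1, i2, i3, R, (isHyperfinite_iff R).2 hR⟩

end Pool.Agent.Results.MP_c82b80_an.MasasNotClassifiable
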